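import Mathlib

-- merged part: Pool.Agent.Work.MP_6c5a21_nt.Code
section
/-!
A covering lemma for binary linear codes.  If a probability weight `μ` on a family of linear
functionals `φ i` on a finite vector space over `ZMod 2` gives, for every `b ∈ B`, mass at most
`η` to the functionals that vanish at `b`, then a subspace of small codimension misses `B`.
-/

namespace Pool.Agent.Work.MP_6c5a21_nt

open Finset Module

section avg

variable {ι G : Type*}

/-- Weighted double counting, lower version. -/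
lemma exists_ge_of_avg (T : Finset ι) (R : Finset G) (μ : ι → ℝ) (hμ : ∀ i, 0 ≤ μ i)
    (hT : 0 < ∑ i ∈ T, μ i) (p : ι → G → Prop) [∀ i s, Decidable (p i s)] (θ : ℝ)
    (h : ∀ s ∈ R, θ * ∑ i ∈ T, μ i ≤ ∑ i ∈ T with p i s, μ i) :
    ∃ i ∈ T, θ * R.card ≤ ((R.filter (p i)).card : ℝ) := by
  by_contra hcon
  push Not at hcon
  obtain ⟨i0, hi0, hpos⟩ : ∃ i ∈ T, 0 < μ i := by
    by_contra h0
    push Not at h0
    have : ∑ i ∈ T, μ i ≤ 0 := sum_nonpos h0
    linarith
  have e1 : ∑ i ∈ T, μ i * ((R.filter (p i)).card : ℝ) = ∑ s ∈ R, ∑ i ∈ T with p i s, μ i := by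
    simp only [sum_filter, card_filter, Nat.cast_sum, mul_sum]
    rw [sum_comm]
    refine sum_congr rfl fun s _ => sum_congr rfl fun i _ => ?_
    split_ifs <;> simp
  have e2 : ∑ i ∈ T, μ i * ((R.filter (p i)).card : ℝ) < ∑ i ∈ T, μ i * (θ * R.card) := by
    apply sum_lt_sum
    · intro i hi
      exact mul_le_mul_of_nonneg_left (hcon i hi).le (hμ i)
    · exact ⟨i0, hi0, mul_lt_mul_of_pos_left (hcon i0 hi0) hpos⟩
  have e3 : ∑ s ∈ R, θ * ∑ i ∈ T, μ i ≤ ∑ s ∈ R, ∑ i ∈ T with p i s, μ i := sum_le_sum h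
  rw [sum_const, nsmul_eq_mul] at e3
  rw [← sum_mul] at e2
  linarith only [e1, e2, e3]

/-- Weighted double counting, upper version. -/
lemma exists_le_of_avg (T : Finset ι) (R : Finset G) (μ : ι → ℝ) (hμ : ∀ i, 0 ≤ μ i)
    (hT : 0 < ∑ i ∈ T, μ i) (p : ι → G → Prop) [∀ i s, Decidable (p i s)] (θ : ℝ)
    (h : ∀ s ∈ R, ∑ i ∈ T with p i s, μ i ≤ θ * ∑ i ∈ T, μ i) :
    ∃ i ∈ T, ((R.filter (p i)).card : ℝ) ≤ θ * R.card := by
  obtain ⟨i, hi, h1⟩ := exists_ge_of_avg T R μ hμ hT (fun i s => ¬ p i s) (1 - θ) (by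
    intro s hs
    have := sum_filter_add_sum_filter_not T (fun i => p i s) μ
    have := h s hs
    linarith)
  refine ⟨i, hi, ?_⟩
  have h2 : ((R.filter (p i)).card : ℝ) + ((R.filter (fun s => ¬ p i s)).card : ℝ) = R.card := by
    exact_mod_cast card_filter_add_card_filter_not (s := R) (p i)
  linarith

end avg

section lin

variable {G : Type*} [AddCommGroup G] [Module (ZMod 2) G] [Fintype G]

lemma finrank_inf_ker (U : Submodule (ZMod 2) G) (f : G →ₗ[ZMod 2] ZMod 2) :
    finrank (ZMod 2) U ≤ finrank (ZMod 2) (U ⊓ LinearMap.ker f : Submodule (ZMod 2) G) + 1 := by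
  have h1 := LinearMap.finrank_range_add_finrank_ker (f.domRestrict U)
  have h2 : finrank (ZMod 2) (LinearMap.range (f.domRestrict U)) ≤ 1 := by
    have := Submodule.finrank_le (LinearMap.range (f.domRestrict U))
    simpa using this
  have h3 : finrank (ZMod 2) (LinearMap.ker (f.domRestrict U))
      = finrank (ZMod 2) (U ⊓ LinearMap.ker f : Submodule (ZMod 2) G) := by
    rw [LinearMap.ker_domRestrict, ← Submodule.finrank_map_subtype_eq U,
      Submodule.map_comap_subtype]
  omega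

lemma finrank_inf_ker_eq (U : Submodule (ZMod 2) G) (f : G →ₗ[ZMod 2] ZMod 2)
    (h : ¬ U ≤ LinearMap.ker f) :
    finrank (ZMod 2) (U ⊓ LinearMap.ker f : Submodule (ZMod 2) G) + 1 = finrank (ZMod 2) U := by
  have h1 := finrank_inf_ker U f
  have h2 : (U ⊓ LinearMap.ker f : Submodule (ZMod 2) G) < U := by
    refine lt_of_le_of_ne inf_le_left fun h0 => h ?_
    exact inf_eq_left.mp h0
  have h3 := Submodule.finrank_lt_finrank_of_lt h2
  omega

open Classical in
lemma card_submodule (U : Submodule (ZMod 2) G) :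
    (univ.filter (fun x => x ∈ U)).card = 2 ^ finrank (ZMod 2) U := by
  have h := Module.card_eq_pow_finrank (K := ZMod 2) (V := U)
  rw [ZMod.card] at h
  rw [← h, Fintype.card_subtype]

variable {ι : Type*} [Fintype ι]

open Classical in
/-- Counting light vectors above a subspace `D` over which the weights are spread out. -/
lemma card_light_le (φ : ι → G →ₗ[ZMod 2] ZMod 2) (μ : ι → ℝ) (hμ : ∀ i, 0 ≤ μ i)
    (lam : ℝ) (hlam : 0 < lam) (D : Submodule (ZMod 2) G)
    (hD : ∀ U : Submodule (ZMod 2) G, D ≤ U →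
      lam * ((finrank (ZMod 2) U : ℝ) - finrank (ZMod 2) D) ≤
        ∑ i with D ≤ LinearMap.ker (φ i) ∧ ¬ U ≤ LinearMap.ker (φ i), μ i)
    (a : ℕ) (k : ℕ) :
    ∀ U : Submodule (ZMod 2) G, D ≤ U → finrank (ZMod 2) U = finrank (ZMod 2) D + k →
      (univ.filter (fun s => s ∈ U ∧
        ∑ i with D ≤ LinearMap.ker (φ i) ∧ φ i s ≠ 0, μ i ≤ a * lam)).card
        ≤ 2 ^ finrank (ZMod 2) D * 2 ^ a * max 1 (k.choose a) := by
  have triv : ∀ k ≤ a, ∀ U : Submodule (ZMod 2) G, finrank (ZMod 2) U = finrank (ZMod 2) D + k →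
      (univ.filter (fun s => s ∈ U ∧
        ∑ i with D ≤ LinearMap.ker (φ i) ∧ φ i s ≠ 0, μ i ≤ a * lam)).card
        ≤ 2 ^ finrank (ZMod 2) D * 2 ^ a * max 1 (k.choose a) := by
    intro k hk U hU
    calc _ ≤ (univ.filter (fun s => s ∈ U)).card := by
          apply card_le_card
          intro s hs
          simp only [mem_filter, mem_univ, true_and] at hs ⊢
          exact hs.1
      _ = 2 ^ finrank (ZMod 2) D * 2 ^ k := by rw [card_submodule, hU, pow_add]
      _ ≤ 2 ^ finrank (ZMod 2) D * 2 ^ a * 1 := by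
          rw [mul_one]
          gcongr
          norm_num
      _ ≤ _ := by
          gcongr
          exact le_max_left _ _
  induction k with
  | zero => exact fun U _ hU => triv 0 (Nat.zero_le _) U hU
  | succ k ih =>
    intro U hDU hU
    by_cases hk : k + 1 ≤ a
    · exact triv _ hk U hU
    have hak : a ≤ k := by omega
    set T : Finset ι := univ.filter
      (fun i => D ≤ LinearMap.ker (φ i) ∧ ¬ U ≤ LinearMap.ker (φ i)) with hT
    set R : Finset G := univ.filter (fun s => s ∈ U ∧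
        ∑ i with D ≤ LinearMap.ker (φ i) ∧ φ i s ≠ 0, μ i ≤ a * lam) with hR
    have hTm : lam * (k + 1) ≤ ∑ i ∈ T, μ i := by
      have := hD U hDU
      rw [hU] at this
      push_cast at this
      have e : ((finrank (ZMod 2) D : ℝ) + (k + 1) - finrank (ZMod 2) D) = k + 1 := by ring
      rwa [e] at this
    have hk1 : (0 : ℝ) < k + 1 := by positivity
    have hTpos : 0 < ∑ i ∈ T, μ i := lt_of_lt_of_le (by positivity) hTm
    obtain ⟨i, hi, hcard⟩ := exists_ge_of_avg T R μ hμ hTpos (fun i s => φ i s = 0)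
      (1 - a / (k + 1)) (by
        intro s hs
        have h1 := sum_filter_add_sum_filter_not T (fun i => φ i s = 0) μ
        have h2 : ∑ i ∈ T with ¬ φ i s = 0, μ i ≤ a * lam := by
          rw [hR, mem_filter] at hs
          refine le_trans ?_ hs.2.2
          apply sum_le_sum_of_subset_of_nonneg
          · intro j hj
            simp only [hT, mem_filter, mem_univ, true_and] at hj ⊢
            exact ⟨hj.1.1, hj.2⟩
          · intro j _ _
            exact hμ j
        have h3 : a * lam ≤ a / (k + 1) * ∑ i ∈ T, μ i := by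
          calc a * lam = a / (k + 1) * (lam * (k + 1)) := by field_simp
            _ ≤ _ := by gcongr
        linarith only [h1, h2, h3])
    simp only [hT, mem_filter, mem_univ, true_and] at hi
    have hU' := finrank_inf_ker_eq U (φ i) hi.2
    have h4 := ih (U ⊓ LinearMap.ker (φ i)) (le_inf hDU hi.1) (by omega)
    have h5 : R.filter (fun s => φ i s = 0) = univ.filter (fun s => s ∈ U ⊓ LinearMap.ker (φ i) ∧
        ∑ i with D ≤ LinearMap.ker (φ i) ∧ φ i s ≠ 0, μ i ≤ a * lam) := by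
      ext s
      simp only [hR, mem_filter, mem_univ, true_and, Submodule.mem_inf, LinearMap.mem_ker]
      tauto
    rw [h5] at hcard
    have h6 : max 1 (k.choose a) = k.choose a := max_eq_right (Nat.choose_pos hak)
    rw [h6] at h4
    have h7 : (k + 1) * k.choose a = (k + 1).choose a * (k + 1 - a) := by
      have := Nat.choose_mul_succ_eq k a
      rw [mul_comm, this]
    have h8 : ((k : ℝ) + 1) * k.choose a = (k + 1).choose a * ((k : ℝ) + 1 - a) := by
      have : a ≤ k + 1 := by omega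
      exact_mod_cast h7
    have h9 : (0 : ℝ) < (k : ℝ) + 1 - a := by
      have : (a : ℝ) ≤ k := by exact_mod_cast hak
      linarith only [this]
    have h10 : (R.card : ℝ) ≤ 2 ^ finrank (ZMod 2) D * 2 ^ a * (k + 1).choose a := by
      have h11 : (1 - (a : ℝ) / (k + 1)) * R.card
          ≤ 2 ^ finrank (ZMod 2) D * 2 ^ a * (k.choose a : ℝ) := by
        refine hcard.trans ?_
        exact_mod_cast h4
      have h12 : (1 - (a : ℝ) / (k + 1)) = ((k : ℝ) + 1 - a) / (k + 1) := by field_simp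
      rw [h12, div_mul_eq_mul_div, div_le_iff₀ hk1] at h11
      have h13 : 2 ^ finrank (ZMod 2) D * 2 ^ a * (k.choose a : ℝ) * (k + 1)
          = ((k : ℝ) + 1 - a) * (2 ^ finrank (ZMod 2) D * 2 ^ a * (k + 1).choose a) := by
        linear_combination (2 ^ finrank (ZMod 2) D * 2 ^ a : ℝ) * h8
      rw [h13] at h11
      exact le_of_mul_le_mul_left h11 h9
    calc R.card ≤ 2 ^ finrank (ZMod 2) D * 2 ^ a * (k + 1).choose a := by exact_mod_cast h10
      _ ≤ _ := by
        gcongr
        exact le_max_right _ _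

open Classical in
/-- A subspace over which the weights are spread out, and that few functionals see. -/
lemma exists_core (φ : ι → G →ₗ[ZMod 2] ZMod 2) (μ : ι → ℝ) (lam : ℝ) :
    ∃ D : Submodule (ZMod 2) G,
      ∑ i with ¬ D ≤ LinearMap.ker (φ i), μ i ≤ lam * finrank (ZMod 2) D ∧
      ∀ U : Submodule (ZMod 2) G, D ≤ U →
        lam * ((finrank (ZMod 2) U : ℝ) - finrank (ZMod 2) D) ≤
          ∑ i with D ≤ LinearMap.ker (φ i) ∧ ¬ U ≤ LinearMap.ker (φ i), μ i := by
  obtain ⟨D, hD⟩ := Finite.exists_max (fun U : Submodule (ZMod 2) G =>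
    lam * (finrank (ZMod 2) U : ℝ) - ∑ i with ¬ U ≤ LinearMap.ker (φ i), μ i)
  refine ⟨D, ?_, fun U hDU => ?_⟩
  · have := hD ⊥
    simp only [finrank_bot, Nat.cast_zero, mul_zero, bot_le, not_true_eq_false, filter_false,
      sum_empty, sub_zero] at this
    linarith
  · have h1 := hD U
    have h2 := sum_filter_add_sum_filter_not (univ.filter (fun i => ¬ U ≤ LinearMap.ker (φ i)))
      (fun i => D ≤ LinearMap.ker (φ i)) μ
    rw [filter_filter, filter_filter] at h2
    have e1 : univ.filter (fun i => ¬ U ≤ LinearMap.ker (φ i) ∧ D ≤ LinearMap.ker (φ i))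
        = univ.filter (fun i => D ≤ LinearMap.ker (φ i) ∧ ¬ U ≤ LinearMap.ker (φ i)) := by
      ext i
      simp only [mem_filter, mem_univ, true_and]
      tauto
    have e2 : univ.filter (fun i => ¬ U ≤ LinearMap.ker (φ i) ∧ ¬ D ≤ LinearMap.ker (φ i))
        = univ.filter (fun i => ¬ D ≤ LinearMap.ker (φ i)) := by
      ext i
      simp only [mem_filter, mem_univ, true_and]
      exact ⟨fun h => h.2, fun h => ⟨fun h' => h (hDU.trans h'), h⟩⟩
    rw [e1, e2] at h2
    linarith only [h1, h2]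

open Classical in
/-- Greedy choice of functionals. -/
lemma greedy (φ : ι → G →ₗ[ZMod 2] ZMod 2) (μ : ι → ℝ) (hμ : ∀ i, 0 ≤ μ i)
    (D : Submodule (ZMod 2) G) (θ : ℝ) (hθ : 0 ≤ θ) (R : Finset G)
    (hW : 0 < ∑ i with D ≤ LinearMap.ker (φ i), μ i)
    (hR : ∀ r ∈ R, ∑ i ∈ (univ.filter (fun i => D ≤ LinearMap.ker (φ i))) with φ i r = 0, μ i
      ≤ θ * ∑ i with D ≤ LinearMap.ker (φ i), μ i) (j : ℕ) :
    ∃ V : Submodule (ZMod 2) G, finrank (ZMod 2) G ≤ finrank (ZMod 2) V + j ∧ D ≤ V ∧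
      ((R.filter (fun r => r ∈ V)).card : ℝ) ≤ θ ^ j * R.card := by
  induction j with
  | zero => exact ⟨⊤, by simp, le_top, by simp⟩
  | succ j ih =>
    obtain ⟨V, h1, h2, h3⟩ := ih
    obtain ⟨i, hi, h4⟩ := exists_le_of_avg _ (R.filter (fun r => r ∈ V)) μ hμ hW
      (fun i r => φ i r = 0) θ (fun r hr => hR r (mem_filter.mp hr).1)
    simp only [mem_filter, mem_univ, true_and] at hi
    refine ⟨V ⊓ LinearMap.ker (φ i), ?_, le_inf h2 hi, ?_⟩
    · have := finrank_inf_ker V (φ i)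
      omega
    · have e : R.filter (fun r => r ∈ V ⊓ LinearMap.ker (φ i))
          = (R.filter (fun r => r ∈ V)).filter (fun r => φ i r = 0) := by
        ext r
        simp only [mem_filter, Submodule.mem_inf, LinearMap.mem_ker]
        tauto
      rw [e, pow_succ]
      calc _ ≤ θ * ((R.filter (fun r => r ∈ V)).card : ℝ) := h4
        _ ≤ θ * (θ ^ j * R.card) := by gcongr
        _ = _ := by ring

lemma zmod_two_sub_ne (x y : ZMod 2) (h : x - y ≠ 0) : x = 0 ∨ y = 0 := by
  revert x y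
  decide

open Classical in
/-- The covering lemma. -/
theorem exists_subspace_avoiding (φ : ι → G →ₗ[ZMod 2] ZMod 2) (μ : ι → ℝ) (hμ : ∀ i, 0 ≤ μ i)
    (hsum : ∑ i, μ i = 1) (n : ℕ) (hn : finrank (ZMod 2) G = n) (hn0 : 0 < n)
    (B : Finset G) (η : ℝ) (hη : 0 ≤ η) (hB : ∀ b ∈ B, ∑ i with φ i b = 0, μ i ≤ η)
    (a K : ℕ) (ha : 4 * n * η ≤ a)
    (hK : (2 * η) ^ K * (2 ^ a * (max 1 (n.choose a) : ℕ)) < 1) :
    ∃ V : Submodule (ZMod 2) G, n ≤ finrank (ZMod 2) V + K ∧ ∀ b ∈ B, b ∉ V := by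
  rcases B.eq_empty_or_nonempty with rfl | ⟨b0, hb0⟩
  · exact ⟨⊤, by simp [hn], by simp⟩
  have hnR : (0 : ℝ) < n := by exact_mod_cast hn0
  set lam : ℝ := 1 / (2 * n) with hlam
  have hlam0 : 0 < lam := by positivity
  obtain ⟨D, hD1, hD2⟩ := exists_core φ μ lam
  have hDn : finrank (ZMod 2) D ≤ n := hn ▸ Submodule.finrank_le D
  have hW : 1 / 2 ≤ ∑ i with D ≤ LinearMap.ker (φ i), μ i := by
    have h1 := sum_filter_add_sum_filter_not univ (fun i => D ≤ LinearMap.ker (φ i)) μ
    have h2 : lam * finrank (ZMod 2) D ≤ 1 / 2 := by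
      have : (finrank (ZMod 2) D : ℝ) ≤ n := by exact_mod_cast hDn
      calc lam * finrank (ZMod 2) D ≤ lam * n := by gcongr
        _ = 1 / 2 := by rw [hlam]; field_simp
    linarith only [hsum, hD1, h1, h2]
  set R : Finset G := univ.filter (fun r => ∃ b ∈ B, r - b ∈ D) with hR
  have hval : ∀ r b : G, r - b ∈ D → ∀ i, D ≤ LinearMap.ker (φ i) → φ i r = φ i b := by
    intro r b h i hi
    have := hi h
    rw [LinearMap.mem_ker, map_sub, sub_eq_zero] at this
    exact this
  obtain ⟨V, hV1, hV2, hV3⟩ := greedy φ μ hμ D (2 * η) (by positivity) R (by linarith only [hW]) (by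
    intro r hr
    simp only [hR, mem_filter, mem_univ, true_and] at hr
    obtain ⟨b, hb, hrb⟩ := hr
    calc _ ≤ ∑ i with φ i b = 0, μ i := by
          apply sum_le_sum_of_subset_of_nonneg
          · intro i hi
            simp only [mem_filter, mem_univ, true_and] at hi ⊢
            rw [← hval r b hrb i hi.1]
            exact hi.2
          · intro i _ _
            exact hμ i
      _ ≤ η := hB b hb
      _ = 2 * η * (1 / 2) := by ring
      _ ≤ _ := by gcongr) K
  have hcount := card_light_le φ μ hμ lam hlam0 D hD2 a (n - finrank (ZMod 2) D) ⊤ le_top (by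
    rw [finrank_top, hn]; omega)
  have hRL : R.card ≤ (univ.filter (fun s => s ∈ (⊤ : Submodule (ZMod 2) G) ∧
        ∑ i with D ≤ LinearMap.ker (φ i) ∧ φ i s ≠ 0, μ i ≤ a * lam)).card := by
    apply card_le_card_of_injOn (fun r => r - b0)
    · intro r hr
      simp only [hR, coe_filter, mem_univ, true_and, Set.mem_ofPred_eq] at hr
      obtain ⟨b, hb, hrb⟩ := hr
      simp only [coe_filter, mem_univ, true_and, Set.mem_ofPred_eq, Submodule.mem_top]
      calc _ ≤ ∑ i ∈ (univ.filter (fun i => φ i b = 0)) ∪ (univ.filter (fun i => φ i b0 = 0)),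
              μ i := by
            apply sum_le_sum_of_subset_of_nonneg
            · intro i hi
              simp only [mem_filter, mem_univ, true_and, mem_union] at hi ⊢
              apply zmod_two_sub_ne
              rw [← hval r b hrb i hi.1, ← map_sub]
              exact hi.2
            · intro i _ _
              exact hμ i
        _ ≤ ∑ i with φ i b = 0, μ i + ∑ i with φ i b0 = 0, μ i := by
            rw [← sum_union_inter]
            have : 0 ≤ ∑ i ∈ (univ.filter (fun i => φ i b = 0)) ∩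
                (univ.filter (fun i => φ i b0 = 0)), μ i := sum_nonneg fun i _ => hμ i
            linarith only [this]
        _ ≤ η + η := add_le_add (hB b hb) (hB b0 hb0)
        _ = 4 * n * η * lam := by rw [hlam]; field_simp; ring
        _ ≤ a * lam := by gcongr
    · intro r _ r' _ h
      exact sub_left_injective h
  refine ⟨V, hn ▸ hV1, fun b hb hbV => ?_⟩
  have hDR : 2 ^ finrank (ZMod 2) D ≤ (R.filter (fun r => r ∈ V)).card := by
    rw [← card_submodule]
    apply card_le_card_of_injOn (fun d => b + d)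
    · intro d hd
      simp only [coe_filter, mem_univ, true_and, Set.mem_ofPred_eq] at hd
      simp only [hR, coe_filter, mem_filter, mem_univ, true_and, Set.mem_ofPred_eq]
      exact ⟨⟨b, hb, by simpa using hd⟩, V.add_mem hbV (hV2 hd)⟩
    · intro d _ d' _ h
      exact add_right_injective b h
  have hmax : max 1 ((n - finrank (ZMod 2) D).choose a) ≤ max 1 (n.choose a) :=
    max_le_max le_rfl (Nat.choose_le_choose a (Nat.sub_le _ _))
  have h1 : (R.card : ℝ) ≤ 2 ^ finrank (ZMod 2) D * (2 ^ a * (max 1 (n.choose a) : ℕ)) := by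
    have : R.card ≤ 2 ^ finrank (ZMod 2) D * (2 ^ a * max 1 (n.choose a)) := by
      calc R.card ≤ _ := hRL
        _ ≤ _ := hcount
        _ ≤ 2 ^ finrank (ZMod 2) D * 2 ^ a * max 1 (n.choose a) := by gcongr
        _ = _ := by ring
    exact_mod_cast this
  have h2 : (2 : ℝ) ^ finrank (ZMod 2) D ≤ (R.filter (fun r => r ∈ V)).card := by
    exact_mod_cast hDR
  have h3 : (0 : ℝ) < 2 ^ finrank (ZMod 2) D := by positivity
  have h4 : (2 * η) ^ K * (R.card : ℝ)
      ≤ (2 * η) ^ K * (2 ^ finrank (ZMod 2) D * (2 ^ a * (max 1 (n.choose a) : ℕ))) := by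
    gcongr
  linarith only [hV3, h2, h4, hK, h3, mul_pos_of_neg_of_neg (Mathlib.Tactic.Linarith.sub_neg_of_lt hK) (Mathlib.Tactic.Linarith.sub_neg_of_lt h3)]

end lin

end Pool.Agent.Work.MP_6c5a21_nt
end

-- merged part: Pool.Agent.Work.MP_6c5a21_nt.Fourier
section
/-!
Parseval's identity on a finite vector space over `ZMod 2`, and the spectral weight of a function
that is almost odd under a translation.
-/

namespace Pool.Agent.Work.MP_6c5a21_nt

open Finset Module

/-- The sign character of `ZMod 2`. -/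
def sgn (t : ZMod 2) : ℝ := if t = 0 then 1 else -1

lemma sgn_add (s t : ZMod 2) : sgn (s + t) = sgn s * sgn t := by
  have h11 : (1 : ZMod 2) + 1 = 0 := by decide
  have h10 : (1 : ZMod 2) ≠ 0 := by decide
  have hcases : ∀ u : ZMod 2, u = 0 ∨ u = 1 := by decide
  rcases hcases s with rfl | rfl <;> rcases hcases t with rfl | rfl <;> simp [sgn, h11, h10]

variable {G : Type*} [AddCommGroup G] [Module (ZMod 2) G] [Fintype G]
  [Fintype (G →ₗ[ZMod 2] ZMod 2)]

omit [Fintype G] [Fintype (G →ₗ[ZMod 2] ZMod 2)] in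
lemma add_self_eq_zero' (x : G) : x + x = 0 := by
  have : (2 : ZMod 2) • x = 0 := by
    have : (2 : ZMod 2) = 0 := by decide
    rw [this, zero_smul]
  rwa [two_smul] at this

omit [Fintype G] in
lemma sum_sgn_eq_zero (x : G) (hx : x ≠ 0) : ∑ ξ : G →ₗ[ZMod 2] ZMod 2, sgn (ξ x) = 0 := by
  obtain ⟨ξ0, h0⟩ : ∃ ξ0 : G →ₗ[ZMod 2] ZMod 2, ξ0 x ≠ 0 := by
    by_contra h
    push Not at h
    exact hx ((Module.forall_dual_apply_eq_zero_iff (ZMod 2) x).mp h)
  have h1 : ∑ ξ : G →ₗ[ZMod 2] ZMod 2, sgn (ξ x)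
      = ∑ ξ : G →ₗ[ZMod 2] ZMod 2, sgn ((ξ + ξ0) x) :=
    (Equiv.sum_comp (Equiv.addRight ξ0) (fun ξ => sgn (ξ x))).symm
  have h2 : ∑ ξ : G →ₗ[ZMod 2] ZMod 2, sgn ((ξ + ξ0) x)
      = - ∑ ξ : G →ₗ[ZMod 2] ZMod 2, sgn (ξ x) := by
    rw [← sum_neg_distrib]
    refine sum_congr rfl fun ξ _ => ?_
    rw [LinearMap.add_apply, sgn_add]
    simp [sgn, h0]
  linarith only [h1, h2]

/-- The Fourier coefficient. -/
def hat (F : G → ℝ) (ξ : G →ₗ[ZMod 2] ZMod 2) : ℝ := ∑ x, F x * sgn (ξ x)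

lemma parseval (F : G → ℝ) :
    ∑ ξ, hat F ξ ^ 2 = Fintype.card (G →ₗ[ZMod 2] ZMod 2) * ∑ x, F x ^ 2 := by
  classical
  have e1 : ∀ ξ, hat F ξ ^ 2 = ∑ x, ∑ y, F x * F y * sgn (ξ (x + y)) := by
    intro ξ
    rw [sq, hat, sum_mul_sum]
    refine sum_congr rfl fun x _ => sum_congr rfl fun y _ => ?_
    rw [map_add, sgn_add]
    ring
  simp only [e1]
  rw [sum_comm, mul_sum]
  refine sum_congr rfl fun x _ => ?_
  rw [sum_comm, sum_eq_single x]
  · simp [add_self_eq_zero', sgn, sq]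
  · intro y _ hy
    rw [← mul_sum, sum_sgn_eq_zero, mul_zero]
    intro h
    apply hy
    calc y = x + x + y := by rw [add_self_eq_zero', zero_add]
      _ = x + (x + y) := by rw [add_assoc]
      _ = x := by rw [h, add_zero]
  · simp

omit [Fintype (G →ₗ[ZMod 2] ZMod 2)] in
lemma hat_shift (F : G → ℝ) (b : G) (ξ : G →ₗ[ZMod 2] ZMod 2) (h : ξ b = 0) :
    hat (fun x => F (x + b) + F x) ξ = 2 * hat F ξ := by
  have e : ∑ x, F (x + b) * sgn (ξ x) = ∑ x, F x * sgn (ξ x) := by
    rw [← Equiv.sum_comp (Equiv.addRight b) (fun x => F x * sgn (ξ x))]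
    refine sum_congr rfl fun x _ => ?_
    simp [h]
  simp only [hat, add_mul, sum_add_distrib, e]
  ring

open Classical in
/-- The spectral weight of `F`. -/
theorem exists_weight (F : G → ℝ) (hF : 0 < ∑ x, F x ^ 2) :
    ∃ μ : (G →ₗ[ZMod 2] ZMod 2) → ℝ, (∀ ξ, 0 ≤ μ ξ) ∧ ∑ ξ, μ ξ = 1 ∧
      ∀ (b : G) (η : ℝ), ∑ x, (F (x + b) + F x) ^ 2 ≤ 4 * η * ∑ x, F x ^ 2 →
        ∑ ξ with ξ b = 0, μ ξ ≤ η := by
  have hM : (0 : ℝ) < Fintype.card (G →ₗ[ZMod 2] ZMod 2) := by
    exact_mod_cast Fintype.card_pos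
  set T : ℝ := Fintype.card (G →ₗ[ZMod 2] ZMod 2) * ∑ x, F x ^ 2 with hT
  have hT0 : 0 < T := by positivity
  refine ⟨fun ξ => hat F ξ ^ 2 / T, fun ξ => by positivity, ?_, fun b η hb => ?_⟩
  · rw [← sum_div, parseval, div_self hT0.ne']
  · rw [← sum_div, div_le_iff₀ hT0]
    have h1 : ∑ ξ with ξ b = 0, 4 * hat F ξ ^ 2
        ≤ ∑ ξ, hat (fun x => F (x + b) + F x) ξ ^ 2 := by
      calc _ = ∑ ξ with ξ b = 0, hat (fun x => F (x + b) + F x) ξ ^ 2 := by
            refine sum_congr rfl fun ξ hξ => ?_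
            rw [hat_shift F b ξ (mem_filter.mp hξ).2]
            ring
        _ ≤ _ := sum_le_sum_of_subset_of_nonneg (filter_subset _ _) fun _ _ _ => by positivity
    rw [parseval, ← mul_sum] at h1
    have h2 : (Fintype.card (G →ₗ[ZMod 2] ZMod 2) : ℝ) * ∑ x, (F (x + b) + F x) ^ 2
        ≤ Fintype.card (G →ₗ[ZMod 2] ZMod 2) * (4 * η * ∑ x, F x ^ 2) := by gcongr
    rw [hT]
    linarith only [h1, h2]

end Pool.Agent.Work.MP_6c5a21_nt
end

-- merged part: Pool.Agent.Work.MP_6c5a21_nt.Chain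
section
/-!
From a set of density close to one half that is disjoint from its translates by the elements of
`B`, we build a function of large variance that is almost odd under each of these translations.
-/

namespace Pool.Agent.Work.MP_6c5a21_nt

open Finset
open scoped Pointwise

variable {G : Type*} [AddCommGroup G] [DecidableEq G]

/-- A slowly growing chain of iterated sumsets, from the inequality of Petridis. -/
lemma exists_chain (A S : Finset G) (hA : A.Nonempty) (κ : ℝ)
    (hκ : ((A + S).card : ℝ) ≤ κ * A.card) :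
    ∃ Y : ℕ → Finset G, (Y 0).Nonempty ∧ Y 0 ⊆ A ∧
      (∀ j, ∀ x ∈ Y j, ∀ s ∈ S, x + s ∈ Y (j + 1)) ∧
      ∀ j, ((Y j).card : ℝ) ≤ κ ^ j * (Y 0).card := by
  obtain ⟨X, hX, hmin⟩ := exists_min_image (A.powerset.erase ∅)
    (fun X => ((X + S).card : ℝ) / X.card) ⟨A, by simpa using hA.ne_empty⟩
  rw [mem_erase, mem_powerset] at hX
  have hXne : X.Nonempty := nonempty_iff_ne_empty.mpr hX.1
  have hXpos : (0 : ℝ) < X.card := by exact_mod_cast hXne.card_pos
  have hApos : (0 : ℝ) < A.card := by exact_mod_cast hA.card_pos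
  have hXκ : ((X + S).card : ℝ) ≤ κ * X.card := by
    have h1 := hmin A (by simpa using hA.ne_empty)
    have h2 : ((A + S).card : ℝ) / A.card ≤ κ := by rwa [div_le_iff₀ hApos]
    rw [← div_le_iff₀ hXpos]
    exact h1.trans h2
  have hκ0 : 0 ≤ κ := by
    by_contra h
    push Not at h
    have : (0 : ℝ) ≤ (X + S).card := by positivity
    linarith only [hXκ, hXpos, h, mul_pos_of_neg_of_neg (Mathlib.Tactic.Linarith.sub_neg_of_lt hXpos) (Mathlib.Tactic.Linarith.sub_neg_of_lt h)]
  have hpet : ∀ X' ⊆ X, (X + S).card * X'.card ≤ (X' + S).card * X.card := by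
    intro X' hX'
    rcases X'.eq_empty_or_nonempty with rfl | hne
    · simp
    have hpos : (0 : ℝ) < X'.card := by exact_mod_cast hne.card_pos
    have h1 := hmin X' (by
      rw [mem_erase, mem_powerset]
      exact ⟨hne.ne_empty, hX'.trans hX.2⟩)
    rw [div_le_div_iff₀ hXpos hpos] at h1
    exact_mod_cast h1
  refine ⟨fun j => j • S + X, by simpa using hXne, by simpa using hX.2, ?_, ?_⟩
  · intro j x hx s hs
    show x + s ∈ (j + 1) • S + X
    rw [succ_nsmul, add_right_comm]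
    exact add_mem_add hx hs
  · intro j
    simp only [zero_nsmul, zero_add]
    induction j with
    | zero => simp
    | succ j ih =>
      have h1 := pluennecke_petridis_inequality_add (j • S) hpet
      have h2 : ((j • S + X + S).card : ℝ) * X.card ≤ (X + S).card * (j • S + X).card := by
        exact_mod_cast h1
      rw [succ_nsmul, add_right_comm]
      have h3 : ((j • S + X + S).card : ℝ) * X.card ≤ (κ ^ (j + 1) * X.card) * X.card := by
        calc _ ≤ ((X + S).card : ℝ) * (j • S + X).card := h2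
          _ ≤ (κ * X.card) * (κ ^ j * X.card) := by gcongr
          _ = _ := by ring
      exact le_of_mul_le_mul_right h3 hXpos

/-- The truncated depth function of a chain. -/
def depth (Y : ℕ → Finset G) (h : ℕ) (x : G) : ℝ := ∑ j ∈ range h, if x ∈ Y j then 1 else 0

omit [AddCommGroup G] in
lemma depth_le_succ (Y : ℕ → Finset G) (x y : G) (hxy : ∀ j, x ∈ Y j → y ∈ Y (j + 1)) (h : ℕ) :
    depth Y h x ≤ depth Y h y + 1 := by
  rcases h with _ | h
  · simp [depth]
  unfold depth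
  rw [sum_range_succ, sum_range_succ']
  have h1 : ∑ j ∈ range h, (if x ∈ Y j then (1 : ℝ) else 0)
      ≤ ∑ j ∈ range h, (if y ∈ Y (j + 1) then (1 : ℝ) else 0) := by
    apply sum_le_sum
    intro j _
    by_cases hx : x ∈ Y j
    · simp [hx, hxy j hx]
    · simp only [hx, if_false]
      split_ifs <;> norm_num
  have h2 : (if x ∈ Y h then (1 : ℝ) else 0) ≤ 1 := by split_ifs <;> norm_num
  have h3 : (0 : ℝ) ≤ (if y ∈ Y 0 then (1 : ℝ) else 0) := by split_ifs <;> norm_num
  linarith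

omit [AddCommGroup G] in
lemma depth_eq_zero (Y : ℕ → Finset G) (h : ℕ) (x : G) (hx : ∀ j < h, x ∉ Y j) :
    depth Y h x = 0 := by
  unfold depth
  apply sum_eq_zero
  intro j hj
  simp [hx j (mem_range.mp hj)]

variable [Module (ZMod 2) G] [Fintype G]

lemma sum_depth_diff_le (Y : ℕ → Finset G) (hmono : Monotone Y) (s : G)
    (hs : ∀ j, ∀ x ∈ Y j, x + s ∈ Y (j + 1)) (h : ℕ) :
    ∑ x, (depth Y h (x + s) - depth Y h x) ^ 2 ≤ (Y h).card := by
  have hss : ∀ x : G, x + s + s = x := by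
    intro x
    rw [add_assoc, add_self_eq_zero', add_zero]
  calc _ ≤ ∑ x, (if x ∈ Y h then (1 : ℝ) else 0) := by
        apply sum_le_sum
        intro x _
        by_cases hx : x ∈ Y h
        · have h1 := depth_le_succ Y x (x + s) (fun j hj => hs j x hj) h
          have h2 := depth_le_succ Y (x + s) x (fun j hj => by
            have := hs j _ hj
            rwa [hss] at this) h
          simp only [hx, if_true]
          linarith only [h1, h2, mul_nonneg_of_nonpos_of_nonpos (Mathlib.Tactic.Linarith.sub_nonpos_of_le h1) (Mathlib.Tactic.Linarith.sub_nonpos_of_le h2)]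
        · have h1 : depth Y h x = 0 :=
            depth_eq_zero Y h x fun j hj hxj => hx (hmono hj.le hxj)
          have h2 : depth Y h (x + s) = 0 :=
            depth_eq_zero Y h _ fun j hj hxj => hx (by
              have := hs j _ hxj
              rw [hss] at this
              exact hmono (Nat.succ_le_of_lt hj) this)
          simp [h1, h2, hx]
    _ = _ := by simp

/-- The almost odd function. -/
theorem exists_almost_odd (A B : Finset G) (hA : A.Nonempty) (hB : B.Nonempty)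
    (hAB : ∀ a ∈ A, ∀ b ∈ B, a + b ∉ A) (κ : ℝ)
    (hκ : (Fintype.card G : ℝ) - A.card ≤ κ * A.card) (h : ℕ) (hh0 : 0 < h)
    (hh : κ ^ h ≤ 3 / 2) :
    ∃ F : G → ℝ, 0 < ∑ x, F x ^ 2 ∧
      ∀ b ∈ B, ∑ x, (F (x + b) + F x) ^ 2 ≤ 4 * (3 / (h : ℝ) ^ 2) * ∑ x, F x ^ 2 := by
  obtain ⟨b0, hb0⟩ := hB
  have hcc : ∀ x c : G, x + c + c = x := by
    intro x c
    rw [add_assoc, add_self_eq_zero', add_zero]
  set S : Finset G := B.image (fun b => b + b0) with hS
  have hAS : ((A + S).card : ℝ) ≤ κ * A.card := by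
    refine le_trans ?_ hκ
    have h1 : (A + S).card ≤ (Aᶜ).card := by
      apply card_le_card_of_injOn (fun y => y + b0)
      · intro y hy
        rw [mem_coe, mem_add] at hy
        obtain ⟨a, ha, s, hs, rfl⟩ := hy
        rw [hS, mem_image] at hs
        obtain ⟨b, hb, rfl⟩ := hs
        simp only [coe_compl, Set.mem_compl_iff, mem_coe]
        rw [← add_assoc, hcc]
        exact hAB a ha b hb
      · intro y _ y' _ hyy
        exact add_left_injective b0 hyy
    rw [card_compl] at h1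
    have h2 : A.card ≤ Fintype.card G := card_le_univ A
    have h3 : ((A + S).card : ℝ) ≤ ((Fintype.card G - A.card : ℕ) : ℝ) := by exact_mod_cast h1
    rwa [Nat.cast_sub h2] at h3
  obtain ⟨Y, hY0, hYA, hstep, hcard⟩ := exists_chain A S hA κ hAS
  have h0S : (0 : G) ∈ S := by
    rw [hS, mem_image]
    exact ⟨b0, hb0, add_self_eq_zero' b0⟩
  have hmono : Monotone Y := by
    apply monotone_nat_of_le_succ
    intro j x hx
    simpa using hstep j x hx 0 h0S
  have hXpos : (0 : ℝ) < (Y 0).card := by exact_mod_cast hY0.card_pos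
  have hYh : ((Y h).card : ℝ) ≤ 3 / 2 * (Y 0).card := by
    calc _ ≤ κ ^ h * (Y 0).card := hcard h
      _ ≤ _ := by gcongr
  have hhR : (0 : ℝ) < h := by exact_mod_cast hh0
  set F : G → ℝ := fun x => depth Y h x - depth Y h (x + b0) with hF
  have hlow : (h : ℝ) ^ 2 * ((Y 0).card / 2) ≤ ∑ x, F x ^ 2 := by
    set P : Finset G := (Y 0).filter (fun x => x + b0 ∉ Y h) with hP
    have h1 : ((Y 0).filter (fun x => x + b0 ∈ Y h)).card ≤ (Y h \ Y 0).card := by
      apply card_le_card_of_injOn (fun y => y + b0)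
      · intro y hy
        rw [mem_coe, mem_filter] at hy
        simp only [coe_sdiff, Set.mem_sdiff, mem_coe]
        exact ⟨hy.2, fun hc => hAB y (hYA hy.1) b0 hb0 (hYA hc)⟩
      · intro y _ y' _ hyy
        exact add_left_injective b0 hyy
    have h2 : (Y h \ Y 0).card + (Y 0).card = (Y h).card :=
      card_sdiff_add_card_eq_card (hmono (Nat.zero_le h))
    have h3 : ((Y 0).filter (fun x => x + b0 ∈ Y h)).card + P.card = (Y 0).card :=
      card_filter_add_card_filter_not (s := Y 0) (fun x => x + b0 ∈ Y h)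
    have h4 : ((Y 0).card : ℝ) / 2 ≤ P.card := by
      have h1' : (((Y 0).filter (fun x => x + b0 ∈ Y h)).card : ℝ) ≤ (Y h \ Y 0).card := by
        exact_mod_cast h1
      have h2' : ((Y h \ Y 0).card : ℝ) + (Y 0).card = (Y h).card := by exact_mod_cast h2
      have h3' : (((Y 0).filter (fun x => x + b0 ∈ Y h)).card : ℝ) + P.card = (Y 0).card := by
        exact_mod_cast h3
      linarith only [hYh, h1', h2', h3']
    calc (h : ℝ) ^ 2 * ((Y 0).card / 2) ≤ (h : ℝ) ^ 2 * P.card := by gcongr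
      _ = ∑ x ∈ P, F x ^ 2 := by
        rw [mul_comm, ← nsmul_eq_mul, ← sum_const]
        refine sum_congr rfl fun x hx => ?_
        rw [hP, mem_filter] at hx
        have e1 : depth Y h x = h := by
          unfold depth
          rw [sum_congr rfl (g := fun _ => (1 : ℝ))]
          · simp
          · intro j _
            simp [hmono (Nat.zero_le j) hx.1]
        have e2 : depth Y h (x + b0) = 0 :=
          depth_eq_zero Y h _ fun j hj hxj => hx.2 (hmono hj.le hxj)
        simp [hF, e1, e2]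
      _ ≤ _ := sum_le_sum_of_subset_of_nonneg (subset_univ _) fun _ _ _ => by positivity
  refine ⟨F, lt_of_lt_of_le (by positivity) hlow, fun b hb => ?_⟩
  have hs : b + b0 ∈ S := by
    rw [hS, mem_image]
    exact ⟨b, hb, rfl⟩
  have h1 := sum_depth_diff_le Y hmono (b + b0) (fun j x hx => hstep j x hx _ hs) h
  have h2 : ∑ x, (depth Y h (x + b0 + (b + b0)) - depth Y h (x + b0)) ^ 2
      = ∑ x, (depth Y h (x + (b + b0)) - depth Y h x) ^ 2 :=
    Equiv.sum_comp (Equiv.addRight b0) (fun x => (depth Y h (x + (b + b0)) - depth Y h x) ^ 2)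
  have h3 : ∑ x, (F (x + b) + F x) ^ 2
      ≤ ∑ x, (2 * (depth Y h (x + b0 + (b + b0)) - depth Y h (x + b0)) ^ 2
        + 2 * (depth Y h (x + (b + b0)) - depth Y h x) ^ 2) := by
    apply sum_le_sum
    intro x _
    have e1 : x + b0 + (b + b0) = x + b := by
      rw [← add_assoc, add_right_comm x b0 b, hcc]
    have e2 : x + (b + b0) = x + b + b0 := (add_assoc _ _ _).symm
    rw [e1, e2]
    simp only [hF]
    linarith only [sq_nonneg ((depth Y h (x + b) - depth Y h (x + b0))
      + (depth Y h (x + b + b0) - depth Y h x)), sq_nonneg (depth Y h (x + b) - depth Y h (x + b0) + (depth Y h (x + b + b0) - depth Y h x))]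
  rw [sum_add_distrib, ← mul_sum, ← mul_sum, h2] at h3
  calc _ ≤ 6 * ((Y 0).card : ℝ) := by linarith only [hYh, h1, h3]
    _ = 4 * (3 / (h : ℝ) ^ 2) * ((h : ℝ) ^ 2 * ((Y 0).card / 2)) := by field_simp; ring
    _ ≤ _ := by gcongr

end Pool.Agent.Work.MP_6c5a21_nt
end

-- merged part: Pool.Agent.Work.MP_6c5a21_nt.Main
section
/-!
Assembly of the three steps.
-/

namespace Pool.Agent.Work.MP_6c5a21_nt

open Finset Module

lemma one_add_pow_le (x : ℝ) (hx : 0 ≤ x) (h : ℕ) (hh : h * x ≤ 1 / 3) (h1 : 1 ≤ h) :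
    (1 + x) ^ h ≤ 3 / 2 := by
  have hR : (1 : ℝ) ≤ h := by exact_mod_cast h1
  have hx1 : x ≤ 1 / 3 := by linarith only [hh, hx, hR, mul_nonneg_of_nonpos_of_nonpos (Mathlib.Tactic.Linarith.sub_nonpos_of_le hx) (Mathlib.Tactic.Linarith.sub_nonpos_of_le hR)]
  have h2 : 1 + (h : ℝ) * (-x) ≤ (1 + -x) ^ h := one_add_mul_le_pow (by linarith only [hx1]) h
  have h3 : (1 + x) ^ h * (1 + -x) ^ h ≤ 1 := by
    rw [← mul_pow]
    apply pow_le_one₀ <;> (refine le_of_not_gt fun h_nl => ?_; linarith only [h_nl, hR, hx1, hx, hh, mul_nonneg_of_nonpos_of_nonpos (Mathlib.Tactic.Linarith.sub_nonpos_of_le (Mathlib.Tactic.Linarith.natCast_nonneg ℝ h)) (le_of_lt (Mathlib.Tactic.Linarith.sub_neg_of_lt h_nl)), mul_nonneg_of_nonpos_of_nonpos (Mathlib.Tactic.Linarith.sub_nonpos_of_le hx) (Mathlib.Tactic.Linarith.sub_nonpos_of_le hh), mul_nonneg_of_nonpos_of_nonpos (Mathlib.Tactic.Linarith.sub_nonpos_of_le hx) (Mathlib.Tactic.Linarith.sub_nonpos_of_le hx)])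
  have h4 : 0 ≤ (1 + x) ^ h := by positivity
  linarith only [h3, hh, h4, h2, mul_nonneg_of_nonpos_of_nonpos (Mathlib.Tactic.Linarith.sub_nonpos_of_le hh) (Mathlib.Tactic.Linarith.sub_nonpos_of_le h4), mul_nonneg_of_nonpos_of_nonpos (Mathlib.Tactic.Linarith.sub_nonpos_of_le h2) (Mathlib.Tactic.Linarith.sub_nonpos_of_le h4)]

lemma numeric_bound (n a : ℕ) (η : ℝ) (hη : 0 < η) (hη1 : η ≤ 3 / 25) (ha : 4 * n * η ≤ a)
    (ha0 : 0 < a) : (2 * η) ^ (2 * a) * (2 ^ a * (max 1 (n.choose a) : ℕ)) < 1 := by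
  have haR : (0 : ℝ) < a := by exact_mod_cast ha0
  have h1 : ((max 1 (n.choose a) : ℕ) : ℝ) ≤ (3 / (4 * η)) ^ a := by
    rw [Nat.cast_max]
    apply max_le
    · rw [Nat.cast_one]
      apply one_le_pow₀
      rw [le_div_iff₀ (by positivity)]
      linarith only [hη, hη1]
    · have h2 : (n.choose a : ℝ) ≤ (n : ℝ) ^ a / a.factorial := Nat.choose_le_pow_div a n
      have h3 : (a : ℝ) ^ a / a.factorial ≤ Real.exp a := Real.pow_div_factorial_le_exp _ haR.le a
      have h4 : Real.exp a ≤ 3 ^ a := by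
        rw [← Real.exp_one_pow]
        gcongr
        exact Real.exp_one_lt_three.le
      have h5 : (n : ℝ) ≤ 1 / (4 * η) * a := by
        rw [div_mul_eq_mul_div, le_div_iff₀ (by positivity)]
        linarith only [ha]
      calc (n.choose a : ℝ) ≤ (n : ℝ) ^ a / a.factorial := h2
        _ ≤ (1 / (4 * η) * a) ^ a / a.factorial := by gcongr
        _ = (1 / (4 * η)) ^ a * ((a : ℝ) ^ a / a.factorial) := by rw [mul_pow]; ring
        _ ≤ (1 / (4 * η)) ^ a * 3 ^ a := by gcongr; exact h3.trans h4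
        _ = (3 / (4 * η)) ^ a := by rw [← mul_pow]; congr 1; ring
  calc _ ≤ (2 * η) ^ (2 * a) * (2 ^ a * (3 / (4 * η)) ^ a) := by gcongr
    _ = (6 * η) ^ a := by
      rw [pow_mul, ← mul_pow, ← mul_pow]
      congr 1
      field_simp
      ring
    _ < 1 := pow_lt_one₀ (by positivity) (by linarith only [hη, hη1]) ha0.ne'

/-- The main estimate, for a deficiency `ε` from density one half. -/
theorem main {G : Type*} [AddCommGroup G] [Module (ZMod 2) G] [Fintype G] (n : ℕ)
    (hn : finrank (ZMod 2) G = n) (hn0 : 0 < n) (ε : ℝ) (hε : 0 < ε) (A : Finset G)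
    (hA : A.Nonempty) (hdens : (1 / 2 - ε) * Fintype.card G < A.card) :
    ∃ V : Submodule (ZMod 2) G, (n : ℝ) - finrank (ZMod 2) V ≤ 21600 * (ε ^ 2 * n) + 2 ∧
      ∀ v ∈ V, ∃ a ∈ A, ∃ b ∈ A, a + b = v := by
  classical
  have hnR : (0 : ℝ) < n := by exact_mod_cast hn0
  by_cases hbig : 1 / 120 < ε
  · refine ⟨⊥, ?_, ?_⟩
    · rw [finrank_bot, Nat.cast_zero, sub_zero]
      have : 1 / 14400 < ε ^ 2 := by linarith only [hbig, hε, mul_pos_of_neg_of_neg (Mathlib.Tactic.Linarith.sub_neg_of_lt hε) (Mathlib.Tactic.Linarith.sub_neg_of_lt hbig)]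
      linarith only [this, mul_nonneg_of_nonpos_of_nonpos (Mathlib.Tactic.Linarith.sub_nonpos_of_le (sq_nonneg ε)) (Mathlib.Tactic.Linarith.sub_nonpos_of_le (Mathlib.Tactic.Linarith.natCast_nonneg ℝ n)), mul_nonneg_of_nonpos_of_nonpos (Mathlib.Tactic.Linarith.sub_nonpos_of_le (Mathlib.Tactic.Linarith.natCast_nonneg ℝ n)) (le_of_lt (Mathlib.Tactic.Linarith.sub_neg_of_lt this))]
    · intro v hv
      obtain ⟨a, ha⟩ := hA
      rw [Submodule.mem_bot] at hv
      exact ⟨a, ha, a, ha, by rw [hv, add_self_eq_zero']⟩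
  push Not at hbig
  set B : Finset G := univ.filter (fun v => ¬ ∃ a ∈ A, ∃ b ∈ A, a + b = v) with hB
  rcases B.eq_empty_or_nonempty with hB0 | hBne
  · refine ⟨⊤, ?_, ?_⟩
    · rw [finrank_top, hn, sub_self]
      positivity
    · intro v _
      by_contra hv
      have : v ∈ B := by
        rw [hB, mem_filter]
        exact ⟨mem_univ _, hv⟩
      rw [hB0] at this
      simp at this
  have hAB : ∀ a ∈ A, ∀ b ∈ B, a + b ∉ A := by
    intro a ha b hb hab
    rw [hB, mem_filter] at hb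
    exact hb.2 ⟨a, ha, a + b, hab, by rw [← add_assoc, add_self_eq_zero', zero_add]⟩
  have hκ : (Fintype.card G : ℝ) - A.card ≤ (1 + 8 * ε) * A.card := by
    have hN : (0 : ℝ) ≤ Fintype.card G := by positivity
    have h1 : (2 + 8 * ε) * ((1 / 2 - ε) * Fintype.card G) ≤ (2 + 8 * ε) * A.card := by
      gcongr
    have h2 : (1 : ℝ) ≤ (2 + 8 * ε) * (1 / 2 - ε) := by linarith only [hε, hbig, mul_pos_of_neg_of_neg (Mathlib.Tactic.Linarith.sub_neg_of_lt hε) (Mathlib.Tactic.Linarith.sub_neg_of_lt hε), mul_nonneg_of_nonpos_of_nonpos (le_of_lt (Mathlib.Tactic.Linarith.sub_neg_of_lt hε)) (Mathlib.Tactic.Linarith.sub_nonpos_of_le hbig)]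
    linarith only [h1, h2, mul_nonneg_of_nonpos_of_nonpos (Mathlib.Tactic.Linarith.sub_nonpos_of_le (Mathlib.Tactic.Linarith.natCast_nonneg ℝ (Fintype.card G))) (Mathlib.Tactic.Linarith.sub_nonpos_of_le h2)]
  set h : ℕ := ⌊1 / (24 * ε)⌋₊ with hh
  have hq : 5 ≤ 1 / (24 * ε) := by
    rw [le_div_iff₀ (by positivity)]
    linarith only [hbig]
  have hh5 : 5 ≤ h := Nat.le_floor (by exact_mod_cast hq)
  have hh5R : (5 : ℝ) ≤ h := by exact_mod_cast hh5
  have hup : (h : ℝ) ≤ 1 / (24 * ε) := Nat.floor_le (by positivity)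
  have hlow : 1 / (24 * ε) < h + 1 := Nat.lt_floor_add_one _
  rw [le_div_iff₀ (by positivity)] at hup
  rw [div_lt_iff₀ (by positivity)] at hlow
  have hpow : (1 + 8 * ε) ^ h ≤ 3 / 2 :=
    one_add_pow_le _ (by positivity) h (by linarith only [hup]) (by omega)
  obtain ⟨F, hF0, hF⟩ := exists_almost_odd A B hA hBne hAB _ hκ h (by omega) hpow
  have : Finite (G →ₗ[ZMod 2] ZMod 2) := DFunLike.finite _
  have : Fintype (G →ₗ[ZMod 2] ZMod 2) := Fintype.ofFinite _
  obtain ⟨μ, hμ0, hμ1, hμ⟩ := exists_weight F hF0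
  set η : ℝ := 3 / (h : ℝ) ^ 2 with hη
  have hη0 : 0 < η := by positivity
  have hη1 : η ≤ 3 / 25 := by
    rw [hη]
    gcongr
    linarith only [hh5R, mul_nonneg_of_nonpos_of_nonpos (Mathlib.Tactic.Linarith.sub_nonpos_of_le (Mathlib.Tactic.Linarith.natCast_nonneg ℝ h)) (Mathlib.Tactic.Linarith.sub_nonpos_of_le hh5R)]
  have hη2 : η ≤ 2700 * ε ^ 2 := by
    rw [hη, div_le_iff₀ (by positivity)]
    have h30 : 1 ≤ 30 * (h * ε) := by linarith only [hbig, hlow]
    (refine le_of_not_gt fun h_nl => ?_; linarith only [h_nl, hlow, hh5R, hε, hbig, hup, mul_nonneg_of_nonpos_of_nonpos (Mathlib.Tactic.Linarith.sub_nonpos_of_le (sq_nonneg ε)) (Mathlib.Tactic.Linarith.sub_nonpos_of_le hh5R), mul_pos_of_neg_of_neg (Mathlib.Tactic.Linarith.sub_neg_of_lt hε) (Mathlib.Tactic.Linarith.sub_neg_of_lt hε), mul_nonneg_of_nonpos_of_nonpos (le_of_lt (Mathlib.Tactic.Linarith.sub_neg_of_lt hε)) (Mathlib.Tactic.Linarith.sub_nonpos_of_le hh5R), mul_pos_of_neg_of_neg (Mathlib.Tactic.Linarith.sub_neg_of_lt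 hε) (Mathlib.Tactic.Linarith.sub_neg_of_lt h_nl), mul_nonneg_of_nonpos_of_nonpos (Mathlib.Tactic.Linarith.sub_nonpos_of_le hbig) (le_of_lt (Mathlib.Tactic.Linarith.sub_neg_of_lt hlow)), mul_nonneg_of_nonpos_of_nonpos (Mathlib.Tactic.Linarith.sub_nonpos_of_le hbig) (le_of_lt (Mathlib.Tactic.Linarith.sub_neg_of_lt h_nl)), mul_nonneg_of_nonpos_of_nonpos (Mathlib.Tactic.Linarith.sub_nonpos_of_le hup) (Mathlib.Tactic.Linarith.sub_nonpos_of_le hup)])
  set a : ℕ := ⌈4 * n * η⌉₊ with ha
  have ha1 : 4 * n * η ≤ a := Nat.le_ceil _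
  have ha2 : (a : ℝ) < 4 * n * η + 1 := Nat.ceil_lt_add_one (by positivity)
  have ha0 : 0 < a := Nat.ceil_pos.mpr (by positivity)
  obtain ⟨V, hV1, hV2⟩ := exists_subspace_avoiding (fun ξ : G →ₗ[ZMod 2] ZMod 2 => ξ) μ hμ0 hμ1
    n hn hn0 B η hη0.le (fun b hb => by convert hμ b η (hF b hb)) a (2 * a) ha1
    (numeric_bound n a η hη0 hη1 ha1 ha0)
  refine ⟨V, ?_, fun v hv => ?_⟩
  · have h1 : (n : ℝ) ≤ finrank (ZMod 2) V + 2 * a := by exact_mod_cast hV1
    have h2 : n * η ≤ n * (2700 * ε ^ 2) := by gcongr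
    linarith only [ha2, h1, h2]
  · by_contra hc
    exact hV2 v (by rw [hB, mem_filter]; exact ⟨mem_univ _, hc⟩) hv

end Pool.Agent.Work.MP_6c5a21_nt
end
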